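import Mathlib
import Pool.Agent.Helper68_Zeros.Main

/-!
# Zeros of an integral of `sin (k arccos (x - cos l))` (MP_c729a8_an, Q1)

For every integer `k ≥ 1` the function `x ↦ F x k` has exactly `k - 1` zeros in `(0, 2)`, and at
each of them it is differentiable with nonzero derivative.
-/

set_option autoImplicit false

namespace Pool.Agent.Results.MP_c729a8_an.ExactZeros

/-- The function of the problem:
`F x k = ∫ l in 0..arccos (x - 1), sin (k * arccos (x - cos l))`. -/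
noncomputable def F (x : ℝ) (k : ℕ) : ℝ :=
  ∫ l in (0 : ℝ)..Real.arccos (x - 1), Real.sin (k * Real.arccos (x - Real.cos l))

/-- Positive answer to Q1: for every integer `k ≥ 1` there are exactly `k - 1` zeros of
`x ↦ F x k` in `(0, 2)`, and each of them is simple. -/
theorem result : ∀ k : ℕ, 1 ≤ k →
    {x : ℝ | x ∈ Set.Ioo (0 : ℝ) 2 ∧ F x k = 0}.encard = ((k - 1 : ℕ) : ℕ∞) ∧
    ∀ x ∈ Set.Ioo (0 : ℝ) 2, F x k = 0 →
      DifferentiableAt ℝ (fun y => F y k) x ∧ deriv (fun y => F y k) x ≠ 0 := by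
  intro k hk
  have h := Pool.Agent.Helper68_Zeros.exact_zeros k hk
  refine ⟨?_, fun x hx hF => h.2 x hx.1 hx.2 hF⟩
  rw [← h.1]
  congr 1
  ext x
  exact ⟨fun hx => ⟨hx.1.1, hx.1.2, hx.2⟩, fun hx => ⟨⟨hx.1, hx.2.1⟩, hx.2.2⟩⟩

end Pool.Agent.Results.MP_c729a8_an.ExactZeros
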